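import Mathlib

/-!
# Project gb: unimodular rows over monoid algebras: common definitions

`helper70`, problem MP_7933bc_al.
-/

open Matrix

namespace GB

universe u

section Rows

variable {A : Type*} [CommRing A] {ι : Type*} [Fintype ι]

/-- the row `v` is unimodular. -/
def Um (v : ι → A) : Prop := ∃ w : ι → A, v ⬝ᵥ w = 1

variable [DecidableEq ι]

/-- the monoid (it is a group) generated by the elementary matrices. -/
def E (ι : Type*) [Fintype ι] [DecidableEq ι] (A : Type*) [CommRing A] :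
    Submonoid (Matrix ι ι A) :=
  Submonoid.closure {M | ∃ (i j : ι) (c : A), i ≠ j ∧ M = Matrix.transvection i j c}

/-- `v` and `w` are in the same orbit of the elementary group. -/
def EEq (v w : ι → A) : Prop := ∃ M ∈ E ι A, w = v ᵥ* M

/-- `v` and `w` are in the same orbit of the general linear group. -/
def GEq (v w : ι → A) : Prop := ∃ M : Matrix ι ι A, IsUnit M.det ∧ w = v ᵥ* M

/-- `v` is a row of an invertible matrix (the position of the row does not matter). -/
def Comp (v : ι → A) : Prop := ∃ (i : ι) (M : Matrix ι ι A), IsUnit M.det ∧ M i = v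

theorem transvection_mem_E {i j : ι} (h : i ≠ j) (c : A) : Matrix.transvection i j c ∈ E ι A :=
  Submonoid.subset_closure ⟨i, j, c, h, rfl⟩

theorem one_mem_E : (1 : Matrix ι ι A) ∈ E ι A := (E ι A).one_mem

theorem det_of_mem_E {M : Matrix ι ι A} (h : M ∈ E ι A) : M.det = 1 := by
  induction h using Submonoid.closure_induction with
  | mem M hM =>
    obtain ⟨i, j, c, hij, rfl⟩ := hM
    exact Matrix.det_transvection_of_ne i j hij c
  | one => simp
  | mul M N _ _ hM hN => rw [Matrix.det_mul, hM, hN, one_mul]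

theorem exists_inv_of_mem_E {M : Matrix ι ι A} (h : M ∈ E ι A) :
    ∃ N ∈ E ι A, M * N = 1 ∧ N * M = 1 := by
  induction h using Submonoid.closure_induction with
  | mem M hM =>
    obtain ⟨i, j, c, hij, rfl⟩ := hM
    refine ⟨Matrix.transvection i j (-c), transvection_mem_E hij _, ?_, ?_⟩
    · rw [Matrix.transvection_mul_transvection_same i j hij]
      simp
    · rw [Matrix.transvection_mul_transvection_same i j hij]
      simp
  | one => exact ⟨1, one_mem_E, by simp, by simp⟩
  | mul M N _ _ hM hN =>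
    obtain ⟨M', hM', h1, h2⟩ := hM
    obtain ⟨N', hN', h3, h4⟩ := hN
    refine ⟨N' * M', (E ι A).mul_mem hN' hM', ?_, ?_⟩
    · calc M * N * (N' * M') = M * (N * N') * M' := by simp only [Matrix.mul_assoc]
        _ = 1 := by rw [h3, Matrix.mul_one, h1]
    · calc N' * M' * (M * N) = N' * (M' * M) * N := by simp only [Matrix.mul_assoc]
        _ = 1 := by rw [h2, Matrix.mul_one, h4]

theorem EEq.refl (v : ι → A) : EEq v v := ⟨1, one_mem_E, by simp⟩

theorem EEq.trans {v w x : ι → A} (h : EEq v w) (h' : EEq w x) : EEq v x := by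
  obtain ⟨M, hM, rfl⟩ := h
  obtain ⟨N, hN, rfl⟩ := h'
  exact ⟨M * N, (E ι A).mul_mem hM hN, by rw [Matrix.vecMul_vecMul]⟩

theorem EEq.symm {v w : ι → A} (h : EEq v w) : EEq w v := by
  obtain ⟨M, hM, rfl⟩ := h
  obtain ⟨N, hN, h1, _⟩ := exists_inv_of_mem_E hM
  exact ⟨N, hN, by rw [Matrix.vecMul_vecMul, h1, Matrix.vecMul_one]⟩

theorem EEq.gEq {v w : ι → A} (h : EEq v w) : GEq v w := by
  obtain ⟨M, hM, rfl⟩ := h
  exact ⟨M, by rw [det_of_mem_E hM]; exact isUnit_one, rfl⟩

theorem GEq.refl (v : ι → A) : GEq v v := ⟨1, by simp, by simp⟩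

theorem GEq.trans {v w x : ι → A} (h : GEq v w) (h' : GEq w x) : GEq v x := by
  obtain ⟨M, hM, rfl⟩ := h
  obtain ⟨N, hN, rfl⟩ := h'
  exact ⟨M * N, by rw [Matrix.det_mul]; exact hM.mul hN, by rw [Matrix.vecMul_vecMul]⟩

theorem GEq.symm {v w : ι → A} (h : GEq v w) : GEq w v := by
  obtain ⟨M, hM, rfl⟩ := h
  exact ⟨M⁻¹, by rw [Matrix.det_nonsing_inv]; exact hM.ringInverse,
    by rw [Matrix.vecMul_vecMul, Matrix.mul_nonsing_inv _ hM, Matrix.vecMul_one]⟩

theorem Um.mul {v : ι → A} (hv : Um v) {M : Matrix ι ι A} (hM : IsUnit M.det) :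
    Um (v ᵥ* M) := by
  obtain ⟨w, hw⟩ := hv
  refine ⟨M⁻¹ *ᵥ w, ?_⟩
  rw [← Matrix.dotProduct_mulVec, Matrix.mulVec_mulVec, Matrix.mul_nonsing_inv _ hM,
    Matrix.one_mulVec, hw]

theorem GEq.um {v w : ι → A} (h : GEq v w) (hv : Um v) : Um w := by
  obtain ⟨M, hM, rfl⟩ := h
  exact hv.mul hM

theorem EEq.um {v w : ι → A} (h : EEq v w) (hv : Um v) : Um w := h.gEq.um hv

omit [DecidableEq ι] in
theorem um_iff_span {v : ι → A} : Um v ↔ Ideal.span (Set.range v) = ⊤ := by
  rw [Ideal.eq_top_iff_one, Ideal.mem_span_range_iff_exists_fun]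
  constructor
  · rintro ⟨w, hw⟩
    exact ⟨w, by rw [← hw, dotProduct]; exact Finset.sum_congr rfl fun i _ => mul_comm _ _⟩
  · rintro ⟨w, hw⟩
    exact ⟨w, by rw [← hw, dotProduct]; exact Finset.sum_congr rfl fun i _ => mul_comm _ _⟩

omit [DecidableEq ι] in
theorem Um.map {B : Type*} [CommRing B] {v : ι → A} (hv : Um v) (f : A →+* B) :
    Um (fun i => f (v i)) := by
  obtain ⟨w, hw⟩ := hv
  refine ⟨fun i => f (w i), ?_⟩
  have := congrArg f hw
  rw [map_one, dotProduct, map_sum] at this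
  simpa [dotProduct, map_mul] using this

theorem comp_iff_gEq_single {v : ι → A} (i : ι) : Comp v ↔ GEq (Pi.single i 1) v := by
  constructor
  · rintro ⟨j, M, hM, rfl⟩
    refine ⟨M.submatrix (Equiv.swap i j) id, ?_, ?_⟩
    · rw [Matrix.det_permute]
      refine IsUnit.mul ?_ hM
      exact ((Equiv.Perm.sign (Equiv.swap i j)).isUnit).map (Int.castRingHom A)
    · rw [Matrix.single_one_vecMul]
      ext k
      simp [Matrix.row]
  · rintro ⟨M, hM, rfl⟩
    exact ⟨i, M, hM, by rw [Matrix.single_one_vecMul]; rfl⟩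

theorem GEq.comp {v w : ι → A} (h : GEq v w) (hv : Comp v) : Comp w := by
  obtain ⟨i, M, hM, rfl⟩ := hv
  have h1 : GEq (Pi.single i 1) (M i) := ⟨M, hM, by rw [Matrix.single_one_vecMul]; rfl⟩
  exact (comp_iff_gEq_single i).2 (h1.trans h)

theorem EEq.comp {v w : ι → A} (h : EEq v w) (hv : Comp v) : Comp w := h.gEq.comp hv

theorem Comp.um {v : ι → A} (hv : Comp v) : Um v := by
  obtain ⟨i, M, hM, rfl⟩ := hv
  have h : Um (Pi.single i (1 : A)) := ⟨Pi.single i 1, by simp⟩
  have := h.mul hM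
  rw [Matrix.single_one_vecMul] at this
  exact this

theorem Comp.map {B : Type*} [CommRing B] {v : ι → A} (hv : Comp v) (f : A →+* B) :
    Comp (fun i => f (v i)) := by
  obtain ⟨i, M, hM, rfl⟩ := hv
  refine ⟨i, M.map f, ?_, rfl⟩
  have : (M.map f).det = f M.det := by
    rw [RingHom.map_det]; rfl
  rw [this]
  exact hM.map f

end Rows

end GB
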