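import Pool.Agent.helper70.GB.Defs

/-!
# Project gb, part N (monoids): definitions and statements

`helper70`, problem MP_7933bc_al.  Proofs: note `7933_helper70.md` in the team store.
-/

open Matrix Polynomial

namespace GB

universe u

section Definitions

/-- the class `C_n` of base rings: Noetherian local rings of dimension at most `n - 1` in which
`(n-1)!` is a unit. -/
structure CC (n : ℕ) (R : Type*) [CommRing R] : Prop where
  noeth : IsNoetherianRing R
  loc : IsLocalRing R
  dim : ringKrullDim R ≤ ((n - 1 : ℕ) : WithBot ℕ∞)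
  fact : IsUnit (((n - 1).factorial : ℕ) : R)

/-- a submonoid is a face. -/
def IsFace {P : Type*} [AddCommMonoid P] (F : AddSubmonoid P) : Prop :=
  ∀ m m' : P, m + m' ∈ F → m ∈ F ∧ m' ∈ F

open Classical in
/-- the retraction of a monoid algebra onto the monoid algebra of a face. -/
noncomputable def retr (R : Type*) [CommRing R] {P : Type*} [AddCommMonoid P]
    (F : AddSubmonoid P) (hF : IsFace F) :
    AddMonoidAlgebra R P →ₐ[R] AddMonoidAlgebra R F :=
  AddMonoidAlgebra.lift R (AddMonoidAlgebra R F) P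
    { toFun := fun m => if h : Multiplicative.toAdd m ∈ F then
        AddMonoidAlgebra.single ⟨Multiplicative.toAdd m, h⟩ 1 else 0
      map_one' := by
        have h : Multiplicative.toAdd (1 : Multiplicative P) ∈ F := by
          rw [toAdd_one]; exact F.zero_mem
        rw [dif_pos h]
        rfl
      map_mul' := by
        intro a b
        by_cases ha : Multiplicative.toAdd a ∈ F
        · by_cases hb : Multiplicative.toAdd b ∈ F
          · have hab : Multiplicative.toAdd (a * b) ∈ F := by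
              rw [toAdd_mul]; exact F.add_mem ha hb
            rw [dif_pos ha, dif_pos hb, dif_pos hab, AddMonoidAlgebra.single_mul_single,
              one_mul]
            rfl
          · have hab : Multiplicative.toAdd (a * b) ∉ F := by
              rw [toAdd_mul]; exact fun h => hb (hF _ _ h).2
            rw [dif_neg hb, dif_neg hab, mul_zero]
        · have hab : Multiplicative.toAdd (a * b) ∉ F := by
            rw [toAdd_mul]; exact fun h => ha (hF _ _ h).1
          rw [dif_neg ha, dif_neg hab, zero_mul] }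

/-- the inclusion of monoid algebras. -/
noncomputable def incl (R : Type*) [CommRing R] {P : Type*} [AddCommMonoid P]
    {N N' : AddSubmonoid P} (h : N ≤ N') : AddMonoidAlgebra R N →ₐ[R] AddMonoidAlgebra R N' :=
  AddMonoidAlgebra.mapDomainAlgHom R R (AddSubmonoid.inclusion h)

/-- the submonoid `{m | 0 ≤ a_i m for all i}`. -/
def Nmon {L : Type*} [AddCommGroup L] {s : ℕ} (a : Fin s → L →+ ℤ) : AddSubmonoid L where
  carrier := {m | ∀ i, 0 ≤ a i m}
  zero_mem' := fun i => by simp
  add_mem' := fun {x y} hx hy i => by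
    rw [map_add]; exact add_nonneg (hx i) (hy i)

/-- the part of a submonoid where a functional is nonnegative. -/
def posPart {G : Type*} [AddCommGroup G] (N1 : AddSubmonoid G) (l : G →+ ℤ) : AddSubmonoid G where
  carrier := {m | m ∈ N1 ∧ 0 ≤ l m}
  zero_mem' := ⟨N1.zero_mem, by simp⟩
  add_mem' := fun {x y} hx hy => ⟨N1.add_mem hx.1 hy.1, by
    rw [map_add]; exact add_nonneg hx.2 hy.2⟩

/-- the face of `posPart N1 l` where the functional vanishes. -/
def zeroPart {G : Type*} [AddCommGroup G] (N1 : AddSubmonoid G) (l : G →+ ℤ) :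
    AddSubmonoid (posPart N1 l) where
  carrier := {m | l m.1 = 0}
  zero_mem' := by simp
  add_mem' := fun {x y} hx hy => by
    simp only [Set.mem_setOf_eq, AddSubmonoid.coe_add, map_add] at *
    rw [hx, hy, add_zero]

theorem zeroPart_isFace {G : Type*} [AddCommGroup G] (N1 : AddSubmonoid G) (l : G →+ ℤ) :
    IsFace (zeroPart N1 l) := by
  intro x y h
  have hx := x.2.2
  have hy := y.2.2
  have h' : l x.1 + l y.1 = 0 := by
    have : l (x + y : posPart N1 l).1 = 0 := h
    rwa [AddSubmonoid.coe_add, map_add] at this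
  exact ⟨show l x.1 = 0 by omega, show l y.1 = 0 by omega⟩

theorem posPart_le {G : Type*} [AddCommGroup G] (N1 : AddSubmonoid G) (l : G →+ ℤ) :
    posPart N1 l ≤ N1 := fun _ h => h.1

/-- the multiplicative set of the elements `1 + f`, `f` supported where `l < 0`. (The set is
already closed under multiplication; `closure` is used only to avoid a proof in the definition.) -/
noncomputable def SigMA (R : Type*) [CommRing R] {G : Type*} [AddCommGroup G]
    (N1 : AddSubmonoid G) (l : G →+ ℤ) : Submonoid (AddMonoidAlgebra R N1) :=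
  Submonoid.closure {x | ∀ m : N1, 0 ≤ l m.1 → (x - 1).coeff m = 0}

/-- change of the coefficient ring. -/
noncomputable def cmap {R S : Type*} [CommRing R] [CommRing S] (P : Type*) [AddCommMonoid P]
    (f : R →+* S) : AddMonoidAlgebra R P →+* AddMonoidAlgebra S P :=
  AddMonoidAlgebra.mapRingHom P f

/-- the monic polynomials. -/
def monicSub (R : Type*) [CommRing R] : Submonoid R[X] where
  carrier := {f | f.Monic}
  one_mem' := monic_one
  mul_mem' := fun hf hg => hf.mul hg

/-- the ring `R(X)`. -/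
abbrev RX (R : Type*) [CommRing R] : Type _ := Localization (monicSub R)

end Definitions

/-- RAO: Rao's theorem (part R of the note). -/
def RAO_stmt : Prop := ∀ (n : ℕ), 3 ≤ n → ∀ (R : Type u) [CommRing R], CC n R →
  ∀ v : Fin n → R[X], Um v → Comp v

/-- TM: Theorem H (graded Horrocks) for monoid algebras, graded by the functional `l`. -/
def TM_stmt : Prop := ∀ (R G : Type u) [CommRing R] [AddCommGroup G] (N1 : AddSubmonoid G)
  (l : G →+ ℤ) (ι : Type) [Fintype ι] [DecidableEq ι], 2 ≤ Fintype.card ι →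
  ∀ v : ι → AddMonoidAlgebra R (posPart N1 l), Um v →
    Comp (fun i => algebraMap (AddMonoidAlgebra R N1) (Localization (SigMA R N1 l))
      (incl R (posPart_le N1 l) (v i))) →
    Comp (fun i => retr R (zeroPart N1 l) (zeroPart_isFace N1 l) (v i)) → Comp v

/-- QM: Quillen patching for positively graded monoid algebras (from LG). -/
def QM_stmt : Prop := ∀ (C P : Type u) [CommRing C] [AddCommMonoid P] (deg : P →+ ℕ),
  (∀ m, deg m = 0 → m = 0) → ∀ (ι : Type) [Fintype ι] [DecidableEq ι]
  (v : ι → AddMonoidAlgebra C P), Um v →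
  (∀ (p : Ideal C) [p.IsPrime],
    Comp (fun i => cmap P (algebraMap C (Localization.AtPrime p)) (v i))) →
  GEq v (fun i => AddMonoidAlgebra.single 0 ((v i).coeff 0))

/-- the statement that all unimodular rows of length `n` over `A` are completable. -/
def AllComp (n : ℕ) (A : Type*) [CommRing A] : Prop := ∀ v : Fin n → A, Um v → Comp v

/-- RZ: the class `C_n` is stable under localizations of `R(z)` at primes. -/
def RZ_stmt : Prop := ∀ (n : ℕ), 3 ≤ n → ∀ (R : Type u) [CommRing R], CC n R →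
  ∀ (p : Ideal (RX R)) [p.IsPrime], CC n (Localization.AtPrime p)

/-- CA: induction step, case A (more functionals than needed), from TM. -/
def CA_stmt : Prop := ∀ (n : ℕ), 3 ≤ n → ∀ (R L : Type u) [CommRing R] [AddCommGroup L]
  (s : ℕ) (a : Fin (s + 1) → L →+ ℤ) (i : Fin (s + 1)),
  AllComp n (AddMonoidAlgebra R (Nmon (fun j => a (i.succAbove j)))) →
  AllComp n (AddMonoidAlgebra R
    (Nmon (fun j => (a (i.succAbove j)).comp (a i).ker.subtype))) →
  AllComp n (AddMonoidAlgebra R (Nmon a))

/-- CB: induction step, case B (linearly independent functionals), from TM, QM, RZ, RAO.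
`z` generates the common kernel of the functionals other than the last one, `L'` is a complement.
The two hypotheses `AllComp` come from the induction on the rank. -/
def CB_stmt : Prop := ∀ (n : ℕ), 3 ≤ n → RAO_stmt.{u} → ∀ (R L : Type u) [CommRing R]
  [AddCommGroup L] (s : ℕ) (a : Fin (s + 1) → L →+ ℤ) (z : L) (L' : AddSubgroup L),
  CC n R → 0 < a (Fin.last s) z → (∀ j : Fin s, a j.castSucc z = 0) →
  (∀ m : L, ∃ (k : ℤ) (m' : L), m' ∈ L' ∧ m = k • z + m') →
  (∀ (k : ℤ), k • z ∈ L' → k = 0) →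
  (∀ m ∈ L', (∀ j : Fin s, a j.castSucc m = 0) → m = 0) →
  AllComp n (AddMonoidAlgebra R
    (Nmon (fun j : Fin s => (a j.castSucc).comp (a (Fin.last s)).ker.subtype))) →
  (∀ (R' : Type u) [CommRing R'], CC n R' →
    AllComp n (AddMonoidAlgebra R' (Nmon (fun j : Fin s => (a j.castSucc).comp L'.subtype)))) →
  AllComp n (AddMonoidAlgebra R (Nmon a))

/-- TH: the theorem for `{m ∈ L : a_i(m) ≥ 0}` with jointly injective functionals (so `L` is free of
finite rank); induction on the number `s` of functionals ALONE: if the functionals other than the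
last one are still jointly injective use CA with `i = last`, otherwise their common kernel is
`ℤ z` with `a_last(z) > 0` and has a complement (`L / ℤz` embeds in `ℤ^s`): CB. -/
def TH_stmt : Prop := RAO_stmt.{u} → ∀ (n : ℕ), 3 ≤ n → ∀ (s : ℕ) (R L : Type u) [CommRing R]
  [AddCommGroup L] (a : Fin s → L →+ ℤ),
  CC n R → (∀ m, (∀ i, a i m = 0) → m = 0) → AllComp n (AddMonoidAlgebra R (Nmon a))

/-- FT: the class `C_n` is stable under localizations at primes of group rings of finite groups. -/
def FT_stmt : Prop := ∀ (n : ℕ), 3 ≤ n → ∀ (R T : Type u) [CommRing R] [AddCommGroup T] [Finite T],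
  CC n R → ∀ (p : Ideal (AddMonoidAlgebra R T)) [p.IsPrime], CC n (Localization.AtPrime p)

/-- MW: Minkowski-Weyl for finitely generated abelian groups. -/
def MW_stmt : Prop := ∀ (G : Type u) [AddCommGroup G] [AddGroup.FG G] (q : ℕ) (m : Fin q → G),
  ∃ (s : ℕ) (a : Fin s → G →+ ℤ), (∀ i j, 0 ≤ a i (m j)) ∧
    ∀ g, (∀ i, 0 ≤ a i g) → ∃ k : ℕ, 1 ≤ k ∧ k • g ∈ AddSubmonoid.closure (Set.range m)

/-- SI: the subintegral lemma (note, N4). -/
def SI_stmt : Prop := ∀ (B : Type u) [CommRing B] (S T : Subring B) (b : B) (hST : S ≤ T),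
  b ^ 2 ∈ S → b ^ 3 ∈ S → (∀ x ∈ T, ∃ y ∈ S, ∃ z ∈ S, x = y + z * b) → b ∈ T →
  ∀ (ι : Type) [Fintype ι] [DecidableEq ι], 2 ≤ Fintype.card ι → ∀ v : ι → S, Um v →
    Comp (fun i => Subring.inclusion hST (v i)) → Comp v

/-- FA: (note, N5a) commuting idempotent endomorphisms. -/
def FA_stmt : Prop := ∀ (A : Type u) [CommRing A] (s : ℕ) (ρ : Fin s → A →+* A),
  (∀ i, (ρ i).comp (ρ i) = ρ i) → (∀ i j, (ρ i).comp (ρ j) = (ρ j).comp (ρ i)) →
  ∀ (n : ℕ) (i₀ : Fin n) (v : Fin n → A), Um v → (∀ i, AllComp n (ρ i).range) →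
    ∃ w : Fin n → A, GEq v w ∧ ∀ i j, ρ i (w j) = Pi.single (M := fun _ => A) i₀ 1 j

/-- FB: (note, N5b). -/
def FB_stmt : Prop := ∀ (A : Type u) [CommRing A] (s : ℕ) (ρ : Fin s → A →+* A),
  (∀ i, (ρ i).comp (ρ i) = ρ i) → (∀ i j, (ρ i).comp (ρ j) = (ρ j).comp (ρ i)) →
  ∀ (n : ℕ) (i₀ : Fin n) (v : Fin n → A), Comp v →
    (∀ i j, ρ i (v j) = Pi.single (M := fun _ => A) i₀ 1 j) →
    ∃ M : Matrix (Fin n) (Fin n) A, IsUnit M.det ∧ M i₀ = v ∧ ∀ i, M.map (ρ i) = 1

/-- IN: interior elements (note, N6): a multiple `k u` is in `M` for all large `k`. -/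
def IN_stmt : Prop := ∀ (G : Type u) [AddCommGroup G] (M : AddSubmonoid G) (s : ℕ)
  (a : Fin s → G →+ ℤ), (∀ g : G, ∃ x ∈ M, ∃ y ∈ M, g = x - y) →
  (∀ g, (∀ i, 0 ≤ a i g) → ∃ k : ℕ, 1 ≤ k ∧ k • g ∈ M) →
  ∀ u : G, (∀ i, 0 < a i u) → ∃ k₀ : ℕ, ∀ k, k₀ ≤ k → k • u ∈ M

/-- DE: descent from `M` with interior elements adjoined (note, end of N6), from SI. -/
def DE_stmt : Prop := ∀ (R G : Type u) [CommRing R] [AddCommGroup G] (M : AddSubmonoid G)
  (I : Set G), (∀ u ∈ I, ∃ k₀ : ℕ, ∀ k, k₀ ≤ k → k • u ∈ M) →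
  ∀ (M1 : AddSubmonoid G) (hM : M ≤ M1), M1 ≤ AddSubmonoid.closure (M ∪ I) →
  ∀ (ι : Type) [Fintype ι] [DecidableEq ι], 2 ≤ Fintype.card ι →
  ∀ v : ι → AddMonoidAlgebra R M, Um v → Comp (fun i => incl R hM (v i)) → Comp v

/-- ST: completability over the saturation (note, N6), from TH, QM, FT: `G` may have torsion, the
row is the unit row in degree zero. -/
def ST_stmt : Prop := RAO_stmt.{u} → ∀ (n : ℕ), 3 ≤ n → ∀ (R G : Type u) [CommRing R]
  [AddCommGroup G] [AddGroup.FG G] (s : ℕ) (a : Fin s → G →+ ℤ), CC n R →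
  (∀ g, (∀ i, a i g = 0) → ∃ k : ℕ, 1 ≤ k ∧ k • g = 0) →
  ∀ (i₀ : Fin n) (v : Fin n → AddMonoidAlgebra R (Nmon a)), Um v →
    (∀ (j : Fin n) (g : Nmon a), (∀ i, a i g.1 = 0) →
      (v j).coeff g = (Pi.single (M := fun _ => AddMonoidAlgebra R (Nmon a)) i₀ 1 j).coeff g) →
    Comp v

/-- SM: the theorem for finitely generated submonoids of abelian groups, by induction on the number
of generators, from MW, IN, DE, ST, FA, FB. -/
def SM_stmt : Prop := RAO_stmt.{u} → ∀ (n : ℕ), 3 ≤ n → ∀ (R G : Type u) [CommRing R]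
  [AddCommGroup G] (M : AddSubmonoid G), M.FG → CC n R →
  (∀ g ∈ M, -g ∈ M → g = 0) → AllComp n (AddMonoidAlgebra R M)

/-- FI: the theorem for all commutative cancellative positive monoids, from SM. -/
def FI_stmt : Prop := RAO_stmt.{u} → ∀ (n : ℕ), 3 ≤ n → ∀ (R M : Type u) [CommRing R]
  [AddCancelCommMonoid M], CC n R → (∀ a b : M, a + b = 0 → a = 0) →
  AllComp n (AddMonoidAlgebra R M)

end GB
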