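import Pool.Agent.helper70.GB.SpecK
import Pool.Agent.helper70.GB.SpecN

/-!
# Project gb: the statements which connect the parts (proof of Rao's theorem)

`helper70`, problem MP_7933bc_al.
-/

open Matrix Polynomial

namespace GB

universe u

/-- HZ: local Horrocks theorem for rows (Theorem H for `D = R[X, 1/X]`, or TM). -/
def HZ_stmt : Prop := ∀ (R : Type u) [CommRing R] [IsLocalRing R] (ι : Type) [Fintype ι]
  [DecidableEq ι], 2 ≤ Fintype.card ι → ∀ v : ι → R[X], Um v →
  Comp (fun i => algebraMap R[X] (RX R) (v i)) → Comp v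

/-- SX: stable range of `R(X)`. -/
def SX_stmt : Prop := ∀ (R : Type u) [CommRing R] [IsNoetherianRing R] (d : ℕ),
  ringKrullDim R ≤ d → ∀ k, d + 1 ≤ k → SR (RX R) k

/-- LF: lifting of elementary equivalences modulo constants (note, E4). -/
def LF_stmt : Prop := ∀ (A : Type u) [CommRing A] (k : ℕ) (c : Fin k → A) (w w' : Fin 3 → A),
  EEq (fun i => Ideal.Quotient.mk (Ideal.span (Set.range c)) (w i))
    (fun i => Ideal.Quotient.mk (Ideal.span (Set.range c)) (w' i)) →
  EEq (Fin.append w c) (Fin.append w' c)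

/-- CS: Roitman reduction (note, C*): all but three entries become constants, and the quotient of
`R` by these constants has dimension at most two. -/
def CS_stmt : Prop := ∀ (R : Type u) [CommRing R] [IsLocalRing R] [IsNoetherianRing R] (k : ℕ),
  ringKrullDim R ≤ ((k + 2 : ℕ) : WithBot ℕ∞) → ∀ v : Fin (3 + k) → R[X], Um v →
  ∃ (w : Fin 3 → R[X]) (c : Fin k → R), (∀ i, c i ∈ IsLocalRing.maximalIdeal R) ∧
    ringKrullDim (R ⧸ Ideal.span (Set.range c)) ≤ 2 ∧
    EEq v (Fin.append w (fun i => C (c i)))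

/-- NF: Suslin's factorial theorem in the form needed (from helper44's files): a unimodular row
`(a ^ (k+2)!, b, c, x_1, ..., x_k)` is completable. -/
def NF_stmt : Prop := ∀ (A : Type u) [CommRing A] (k : ℕ) (a b c : A) (x : Fin k → A),
  Um (Fin.append ![a ^ (k + 2).factorial, b, c] x) →
  Comp (Fin.append ![a ^ (k + 2).factorial, b, c] x)

/-- RW: Rao's theorem from CS, KW, FN, SX, LF, NF, HZ (note, R.5): this is the last module of
part R; `RAO_stmt` is in `SpecN`. -/
def RW_stmt : Prop := CS_stmt.{u} → KW_stmt.{u} → FN_stmt.{u} → SX_stmt.{u} → LF_stmt.{u} →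
  NF_stmt.{u} → HZ_stmt.{u} → RAO_stmt.{u}

end GB
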