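import Pool.Agent.helper65.GB.Koszul

/-!
# Project gb, parts R.4 and R.5 (K_1 stability, alternating forms, Karoubi): statements

`helper70`, problem MP_7933bc_al.  Proofs: note `7933_helper70.md` in the team store.
All index types live in `Type`, all rings in `Type u`.  `SR A m` is the stable range condition of
`helper65/GB/Koszul.lean`.
-/

open Matrix Polynomial

namespace GB

universe u

section Definitions

variable {A : Type*} [CommRing A] {ι κ : Type*} [Fintype ι] [DecidableEq ι] [Fintype κ]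
  [DecidableEq κ]

/-- block sum of matrices. -/
def dsum (M : Matrix ι ι A) (N : Matrix κ κ A) : Matrix (ι ⊕ κ) (ι ⊕ κ) A :=
  Matrix.fromBlocks M 0 0 N

/-- the standard hyperbolic form. -/
def Hyp (κ : Type*) [Fintype κ] [DecidableEq κ] (A : Type*) [CommRing A] :
    Matrix (κ ⊕ κ) (κ ⊕ κ) A :=
  Matrix.fromBlocks 0 1 (-1) 0

/-- alternating matrices. -/
def IsAlt (Φ : Matrix ι ι A) : Prop := Φᵀ = -Φ ∧ ∀ i, Φ i i = 0

/-- the alternating matrix of a row of length three and a dual row; its Pfaffian is `w ⬝ᵥ w'`. -/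
def V (w w' : Fin 3 → A) : Matrix (Fin 4) (Fin 4) A :=
  !![0, w 0, w 1, w 2; -w 0, 0, w' 2, -w' 1; -w 1, -w' 2, 0, w' 0; -w 2, w' 1, -w' 0, 0]

/-- the row `(1,0,0)`. -/
def e0 (A : Type*) [CommRing A] : Fin 3 → A := ![1, 0, 0]

/-- the matrix `1 ⊕ σ`. -/
def oneSum (σ : Matrix (Fin 3) (Fin 3) A) : Matrix (Fin 4) (Fin 4) A :=
  !![1, 0, 0, 0; 0, σ 0 0, σ 0 1, σ 0 2; 0, σ 1 0, σ 1 1, σ 1 2; 0, σ 2 0, σ 2 1, σ 2 2]

end Definitions

/-- an abelian group together with a class map which is a model of `K_1 A = GL(A)/E(A)`. -/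
structure K1Data (A : Type u) [CommRing A] where
  K : Type u
  [grp : AddCommGroup K]
  k : ∀ {ι : Type} [Fintype ι] [DecidableEq ι], Matrix ι ι A → K
  k_mul : ∀ {ι : Type} [Fintype ι] [DecidableEq ι] (M N : Matrix ι ι A), IsUnit M.det →
    IsUnit N.det → k (M * N) = k M + k N
  k_E : ∀ {ι : Type} [Fintype ι] [DecidableEq ι] (M : Matrix ι ι A), M ∈ E ι A → k M = 0
  k_dsum_one : ∀ {ι κ : Type} [Fintype ι] [DecidableEq ι] [Fintype κ] [DecidableEq κ]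
    (M : Matrix ι ι A), IsUnit M.det → k (dsum M (1 : Matrix κ κ A)) = k M
  k_reindex : ∀ {ι κ : Type} [Fintype ι] [DecidableEq ι] [Fintype κ] [DecidableEq κ]
    (e : ι ≃ κ) (M : Matrix ι ι A), k (Matrix.reindex e e M) = k M
  exact : ∀ {ι : Type} [Fintype ι] [DecidableEq ι] (M : Matrix ι ι A), IsUnit M.det →
    k M = 0 → ∃ N : ℕ, dsum M (1 : Matrix (Fin N) (Fin N) A) ∈ E (ι ⊕ Fin N) A

attribute [instance] K1Data.grp

/-- KE: `K_1` exists. (`GL(A)` as the direct limit, Whitehead's lemma: `E = [GL, GL]`, in particular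
normal with abelian quotient; Koszul lemma gives normality for size at least three.) -/
def KE_stmt : Prop := ∀ (A : Type u) [CommRing A], Nonempty (K1Data.{u} A)

/-- KT: the transpose is well defined on `K_1`. -/
def KT_stmt : Prop := ∀ (A : Type u) [CommRing A] (𝒦 : K1Data.{u} A) (ι κ : Type) [Fintype ι]
  [DecidableEq ι] [Fintype κ] [DecidableEq κ] (M : Matrix ι ι A) (N : Matrix κ κ A),
  IsUnit M.det → IsUnit N.det → 𝒦.k M = 𝒦.k N → 𝒦.k Mᵀ = 𝒦.k Nᵀ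

/-- TT: injective stability, one step (note, (K1)). -/
def TT_stmt : Prop := ∀ (A : Type u) [CommRing A] (m : ℕ), 3 ≤ m → SR A (m - 1) →
  ∀ g : Matrix (Fin m) (Fin m) A, dsum g (1 : Matrix (Fin 1) (Fin 1) A) ∈ E (Fin m ⊕ Fin 1) A →
    g ∈ E (Fin m) A

/-- TI: injective stability, iterated, arbitrary index type (TT and reindexing). -/
def TI_stmt : Prop := ∀ (A : Type u) [CommRing A] (ι κ : Type) [Fintype ι] [DecidableEq ι]
  [Fintype κ] [DecidableEq κ], 3 ≤ Fintype.card ι → (∀ k, Fintype.card ι ≤ k + 1 → SR A k) →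
  ∀ g : Matrix ι ι A, dsum g (1 : Matrix κ κ A) ∈ E (ι ⊕ κ) A → g ∈ E ι A

/-- SU: surjective stability down to size three. -/
def SU_stmt : Prop := ∀ (A : Type u) [CommRing A], (∀ k, 3 ≤ k → SR A k) →
  ∀ (ι : Type) [Fintype ι] [DecidableEq ι] (g : Matrix ι ι A), 3 ≤ Fintype.card ι → g.det = 1 →
    ∃ σ : Matrix (Fin 3) (Fin 3) A, σ.det = 1 ∧ ∀ 𝒦 : K1Data.{u} A, 𝒦.k σ = 𝒦.k g

/-- ES: the transvections of an alternating form `χ ⊕ Hyp` of size at least six act transitively on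
pairs of a hyperbolic pair (note, (K2)): a hyperbolic pair `(x, y)` is moved to the standard
hyperbolic pair by an isometry in the elementary group. -/
def ES_stmt : Prop := ∀ (A : Type u) [CommRing A] (ι : Type) [Fintype ι] [DecidableEq ι],
  4 ≤ Fintype.card ι → (∀ k, 3 ≤ k → SR A k) →
  ∀ (χ : Matrix ι ι A), IsAlt χ → IsUnit χ.det →
  ∀ x y : ι ⊕ (Fin 1 ⊕ Fin 1) → A, x ⬝ᵥ (dsum χ (Hyp (Fin 1) A) *ᵥ y) = 1 →
    ∃ τ ∈ E (ι ⊕ (Fin 1 ⊕ Fin 1)) A,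
      τᵀ * dsum χ (Hyp (Fin 1) A) * τ = dsum χ (Hyp (Fin 1) A) ∧
      τ *ᵥ x = Pi.single (Sum.inr (Sum.inl 0)) 1 ∧ τ *ᵥ y = Pi.single (Sum.inr (Sum.inr 0)) 1

/-- TF: cancellation of hyperbolic planes for alternating forms of size four (note, (K2)); from ES
and TI. -/
def TF_stmt : Prop := ∀ (A : Type u) [CommRing A], (∀ k, 3 ≤ k → SR A k) →
  ∀ χ χ' : Matrix (Fin 4) (Fin 4) A, IsAlt χ → IsUnit χ.det → IsAlt χ' → IsUnit χ'.det →
  ∀ (r : ℕ) (g : Matrix (Fin 4 ⊕ (Fin r ⊕ Fin r)) (Fin 4 ⊕ (Fin r ⊕ Fin r)) A),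
    g ∈ E (Fin 4 ⊕ (Fin r ⊕ Fin r)) A →
    gᵀ * dsum χ' (Hyp (Fin r) A) * g = dsum χ (Hyp (Fin r) A) →
    ∃ h ∈ E (Fin 4) A, hᵀ * χ' * h = χ

/-- T4: elementary congruences of `V` (note, (K3)). -/
def T4_stmt : Prop := ∀ (A : Type u) [CommRing A] (w w' : Fin 3 → A), w ⬝ᵥ w' = 1 →
  ∀ h ∈ E (Fin 4) A, ∃ x x' : Fin 3 → A, hᵀ * V w w' * h = V x x' ∧ x ⬝ᵥ x' = 1 ∧ EEq w x

/-- VS: `V` and `SL_3` (note, (E6)): explicit identity, `z'` is the cross product of the rows two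
and three of `σ`. -/
def VS_stmt : Prop := ∀ (A : Type u) [CommRing A] (σ : Matrix (Fin 3) (Fin 3) A), σ.det = 1 →
  ∃ z' : Fin 3 → A, σ 0 ⬝ᵥ z' = 1 ∧ (oneSum σ)ᵀ * V (e0 A) (e0 A) * oneSum σ = V (σ 0) z'

/-- VE: `V e₀ e₀` is elementary (it is a product of two `2 × 2` rotations), alternating, and
`V w w'` is alternating of determinant one. -/
def VE_stmt : Prop := ∀ (A : Type u) [CommRing A], V (e0 A) (e0 A) ∈ E (Fin 4) A ∧
  ∀ w w' : Fin 3 → A, IsAlt (V w w') ∧ (V w w').det = (w ⬝ᵥ w') ^ 2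

/-- L1: (note, (E6)). -/
def L1_stmt : Prop := ∀ (A : Type u) [CommRing A] (w w' : Fin 3 → A), w ⬝ᵥ w' = 1 →
  ∃ τ : Matrix (Fin 3) (Fin 3) A, τ.det = 1 ∧ (∀ 𝒦 : K1Data.{u} A, 𝒦.k τ = 𝒦.k (V w w')) ∧
    EEq (τ 0) ![w 0 ^ 2, w 1, w 2]

/-- PH: the homomorphism `φ_c` (note, (K4)): the class of `[[β, c], [-t, adj β]]` with
`det β + c t = 1` is multiplicative, depends only on `β` modulo `c`, is trivial for elementary `β`
and is compatible with stabilization. -/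
def PH_stmt : Prop := ∀ (A : Type u) [CommRing A] (𝒦 : K1Data.{u} A) (c : A),
  ∃ φ : ∀ {ι : Type} [Fintype ι] [DecidableEq ι], Matrix ι ι A → A → 𝒦.K,
    (∀ (ι : Type) [Fintype ι] [DecidableEq ι] (β : Matrix ι ι A) (t : A), β.det + c * t = 1 →
      φ β t = 𝒦.k (Matrix.fromBlocks β (c • (1 : Matrix ι ι A)) (-(t • (1 : Matrix ι ι A)))
        β.adjugate)) ∧
    (∀ (ι : Type) [Fintype ι] [DecidableEq ι] (β γ : Matrix ι ι A) (t u : A),
      β.det + c * t = 1 → γ.det + c * u = 1 → φ (β * γ) (u + t * γ.det) = φ β t + φ γ u) ∧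
    (∀ (ι : Type) [Fintype ι] [DecidableEq ι] (β γ Y : Matrix ι ι A) (t u : A),
      β.det + c * t = 1 → γ.det + c * u = 1 → γ = β + c • Y → φ β t = φ γ u) ∧
    (∀ (ι : Type) [Fintype ι] [DecidableEq ι] (β : Matrix ι ι A) (t : A),
      β ∈ E ι A → β.det + c * t = 1 → φ β t = 0) ∧
    (∀ (ι κ : Type) [Fintype ι] [DecidableEq ι] [Fintype κ] [DecidableEq κ] (β : Matrix ι ι A)
      (t : A), β.det + c * t = 1 → φ (dsum β (1 : Matrix κ κ A)) t = φ β t)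

/-- F2: the class of `V` is linear in powers of the first coordinate (note, (K4)); from PH. -/
def F2_stmt : Prop := ∀ (A : Type u) [CommRing A] (𝒦 : K1Data.{u} A) (a b c : A)
  (w' x' : Fin 3 → A) (M : ℕ), 1 ≤ M → ![a, b, c] ⬝ᵥ w' = 1 → ![a ^ M, b, c] ⬝ᵥ x' = 1 →
  𝒦.k (V ![a ^ M, b, c] x') = M • 𝒦.k (V ![a, b, c] w')

/-- KL: Karoubi linearization of alternating matrices over a polynomial ring (note, (K5)). -/
def KL_stmt : Prop := ∀ (B : Type u) [CommRing B] (ι : Type) [Fintype ι] [DecidableEq ι]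
  (Φ : Matrix ι ι B[X]), IsAlt Φ → IsUnit Φ.det →
  ∃ (r : ℕ) (ε : Matrix (ι ⊕ (Fin r ⊕ Fin r)) (ι ⊕ (Fin r ⊕ Fin r)) B[X])
    (n : Matrix (ι ⊕ (Fin r ⊕ Fin r)) (ι ⊕ (Fin r ⊕ Fin r)) B),
    ε ∈ E (ι ⊕ (Fin r ⊕ Fin r)) B[X] ∧ IsNilpotent n ∧
    nᵀ * dsum (Φ.map (Polynomial.eval 0)) (Hyp (Fin r) B) =
      dsum (Φ.map (Polynomial.eval 0)) (Hyp (Fin r) B) * n ∧
    εᵀ * dsum Φ (Hyp (Fin r) B[X]) * ε =
      (dsum (Φ.map (Polynomial.eval 0)) (Hyp (Fin r) B)).map C *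
        (1 + (X : B[X]) • n.map C)

/-- RT: roots of `1 + X n` (note, (K6)). -/
def RT_stmt : Prop := ∀ (B : Type u) [CommRing B] (ι : Type) [Fintype ι] [DecidableEq ι]
  (ψ n : Matrix ι ι B) (k : ℕ), IsUnit (k : B) → IsNilpotent n → nᵀ * ψ = ψ * n →
  (1 + (X : B[X]) • n.map C : Matrix ι ι B[X]).det = 1 →
  ∃ s : Matrix ι ι B[X], s ^ k = 1 + (X : B[X]) • n.map C ∧ sᵀ * ψ.map C = ψ.map C * s ∧
    s.det = 1

/-- KW: Karoubi for a row of length three (KL, RT and a change of the dual row at `X = 0`). -/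
def KW_stmt : Prop := ∀ (B : Type u) [CommRing B] (k : ℕ), IsUnit (k : B) →
  ∀ w : Fin 3 → B[X], Um w → (∀ i, (w i).eval 0 = e0 B i) →
  ∃ (w' : Fin 3 → B[X]) (r : ℕ)
    (ε s : Matrix (Fin 4 ⊕ (Fin r ⊕ Fin r)) (Fin 4 ⊕ (Fin r ⊕ Fin r)) B[X]),
    w ⬝ᵥ w' = 1 ∧ ε ∈ E (Fin 4 ⊕ (Fin r ⊕ Fin r)) B[X] ∧ s.det = 1 ∧
    sᵀ * dsum (V (e0 B[X]) (e0 B[X])) (Hyp (Fin r) B[X]) =
      dsum (V (e0 B[X]) (e0 B[X])) (Hyp (Fin r) B[X]) * s ∧
    εᵀ * dsum (V w w') (Hyp (Fin r) B[X]) * ε =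
      dsum (V (e0 B[X]) (e0 B[X])) (Hyp (Fin r) B[X]) * s ^ k

/-- FN: the final step (note, R.5), over a ring `A` of stable range at most three. -/
def FN_stmt : Prop := ∀ (A : Type u) [CommRing A], (∀ k, 3 ≤ k → SR A k) →
  ∀ (M : ℕ), 1 ≤ M → ∀ (w w' : Fin 3 → A), w ⬝ᵥ w' = 1 →
  ∀ (r : ℕ) (ε s : Matrix (Fin 4 ⊕ (Fin r ⊕ Fin r)) (Fin 4 ⊕ (Fin r ⊕ Fin r)) A),
    ε ∈ E (Fin 4 ⊕ (Fin r ⊕ Fin r)) A → s.det = 1 →
    sᵀ * dsum (V (e0 A) (e0 A)) (Hyp (Fin r) A) = dsum (V (e0 A) (e0 A)) (Hyp (Fin r) A) * s →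
    εᵀ * dsum (V w w') (Hyp (Fin r) A) * ε =
      dsum (V (e0 A) (e0 A)) (Hyp (Fin r) A) * s ^ (4 * M) →
  ∃ a b c : A, Um ![a, b, c] ∧ EEq w ![a ^ (2 * M), b, c]

end GB
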