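import Pool.Agent.helper68.GB.Spec
import Pool.Agent.helper59.FI.Base

set_option autoImplicit false

namespace Pool.Agent.GB

open Pool.Agent.helper58.DC Pool.Agent.DI Pool.Agent.GR Pool.Agent.OB Pool.Agent.DR Pool.Agent.FI Pool.Agent.FI3 Pool.Agent.FI4 Pool.Agent.LE Pool.Agent.BR

section

variable {G : Type} [Group G]

/-- the conjugate of a tuple -/
def ORZ_c (a : G) {q : ℕ} (t : Fin q → G) : Fin q → G := fun i => a * t i * a⁻¹

theorem ORZ_prod (a : G) {q : ℕ} (t : Fin q → G) : (List.ofFn (ORZ_c a t)).prod = a * (List.ofFn t).prod * a⁻¹ := by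
  have h1 : List.ofFn (ORZ_c a t) = (List.ofFn t).map (MulAut.conj a) := by
    rw [List.map_ofFn]
    rfl
  rw [h1, ← map_list_prod]
  rfl

theorem ORZ_mem (P Q : Subgroup G) (e : G → ℂ) {q : ℕ} (t : Fin q → G) (x : G) :
    x ∈ stb P Q e t ↔ x ∈ P ∧ x ∈ nz Q ∧ (∀ y, e (x * y * x⁻¹) = e y) ∧ ∀ i, t i * x = x * t i := by
  unfold stb
  rw [Subgroup.mem_inf, Subgroup.mem_inf, Subgroup.mem_inf, Subgroup.mem_centralizer_iff]
  constructor
  · rintro ⟨⟨⟨h1, h2⟩, h3⟩, h4⟩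
    exact ⟨h1, h2, h3, fun i => h4 _ ⟨i, rfl⟩⟩
  · rintro ⟨h1, h2, h3, h4⟩
    refine ⟨⟨⟨h1, h2⟩, h3⟩, ?_⟩
    rintro _ ⟨i, rfl⟩
    exact h4 i

end

/-- the stabiliser of the conjugate triple -/
theorem ORZ_stb (hFEQ : FEQ_stmt) {G : Type} [Group G] [Finite G] {P Q : Subgroup G} {e : G → ℂ} {q : ℕ} (t : Fin q → G) {a : G} (ha : a ∈ P) :
    stb P (cjS a Q) (cjF a e) (ORZ_c a t) = cjS a (stb P Q e t) := by
  ext x
  rw [mem_cjS, ORZ_mem, ORZ_mem]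
  have hf := hFEQ G (⊥ : Ideal (integralClosure ℤ ℂ)) a a Q Q Q e e e
  have h1 : x ∈ P ↔ a⁻¹ * x * a ∈ P := by
    constructor
    · intro h
      exact P.mul_mem (P.mul_mem (P.inv_mem ha) h) ha
    · intro h
      have : x = a * (a⁻¹ * x * a) * a⁻¹ := by group
      rw [this]
      exact P.mul_mem (P.mul_mem ha h) (P.inv_mem ha)
  have h2 : x ∈ nz (cjS a Q) ↔ a⁻¹ * x * a ∈ nz Q := by
    rw [hf.2.1.2.1, mem_cjS]
  have h3 : (∀ y, cjF a e (x * y * x⁻¹) = cjF a e y) ↔ ∀ y, e (a⁻¹ * x * a * y * (a⁻¹ * x * a)⁻¹) = e y := by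
    constructor
    · intro h y
      have h4 := h (a * y * a⁻¹)
      rw [cjF_apply, cjF_apply] at h4
      have h5 : a⁻¹ * (x * (a * y * a⁻¹) * x⁻¹) * a = a⁻¹ * x * a * y * (a⁻¹ * x * a)⁻¹ := by group
      have h6 : a⁻¹ * (a * y * a⁻¹) * a = y := by group
      rwa [h5, h6] at h4
    · intro h y
      have h4 := h (a⁻¹ * y * a)
      rw [cjF_apply, cjF_apply]
      have h5 : a⁻¹ * x * a * (a⁻¹ * y * a) * (a⁻¹ * x * a)⁻¹ = a⁻¹ * (x * y * x⁻¹) * a := by group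
      rwa [h5] at h4
  have h4 : (∀ i, ORZ_c a t i * x = x * ORZ_c a t i) ↔ ∀ i, t i * (a⁻¹ * x * a) = a⁻¹ * x * a * t i := by
    refine forall_congr' fun i => ?_
    have h5 : ORZ_c a t i * x = a * (t i * (a⁻¹ * x * a)) * a⁻¹ := by
      show a * t i * a⁻¹ * x = _
      group
    have h6 : x * ORZ_c a t i = a * (a⁻¹ * x * a * t i) * a⁻¹ := by
      show x * (a * t i * a⁻¹) = _
      group
    rw [h5, h6]
    constructor
    · intro h
      exact mul_left_cancel (mul_right_cancel h)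
    · intro h
      rw [h]
  rw [h1, h2, h3, h4]

/-- the weight under conjugation -/
theorem ORZ_lam (hFEQ : FEQ_stmt) (hCJB : CJB_stmt) {p : ℕ} {M : Ideal (integralClosure ℤ ℂ)} (hS : Setup p M) {G : Type} [Group G] [Finite G]
    (D T : Subgroup G) (θ : G → ℂ) (l : T →* ℂˣ) (a v : G) (e : G → ℂ) (he : e ∈ BB M (Cz (⊤ : Subgroup G) v)) :
    LamZ M D T θ l (a * v * a⁻¹) (rep M (Cz (⊤ : Subgroup G) (a * v * a⁻¹)) (cjF a e)) = LamZ M D T θ l v (rep M (Cz (⊤ : Subgroup G) v) e) := by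
  classical
  have hCz : Cz (⊤ : Subgroup G) (a * v * a⁻¹) = cjS a (Cz (⊤ : Subgroup G) v) := by
    have h := (hFEQ G M a a (⊤ : Subgroup G) (⊤ : Subgroup G) (⊤ : Subgroup G) e e e).2.2.1 v
    rw [h]
    congr 1
    ext x
    rw [mem_cjS]
    exact ⟨fun _ => Subgroup.mem_top _, fun _ => Subgroup.mem_top _⟩
  have hcard : Nat.card (Cz (⊤ : Subgroup G) (a * v * a⁻¹)) = Nat.card (Cz (⊤ : Subgroup G) v) := by
    rw [hCz]
    exact (hFEQ G M a a (Cz (⊤ : Subgroup G) v) (⊤ : Subgroup G) (⊤ : Subgroup G) e e e).2.1.2.2.2.2.2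
  have hsb : ∀ t : G, SB M (Cz (⊤ : Subgroup G) (a * v * a⁻¹)) (rep M (Cz (⊤ : Subgroup G) (a * v * a⁻¹)) (cjF a e)) (cjF t⁻¹ θ) ↔
      SB M (Cz (⊤ : Subgroup G) v) (rep M (Cz (⊤ : Subgroup G) v) e) (cjF (t * a)⁻¹ θ) := by
    intro t
    have h1 := ((hCJB p M hS G a (Cz (⊤ : Subgroup G) v) e).2.1) he
    rw [hCz]
    have h2 := (hFEQ G M a (t * a)⁻¹ (⊤ : Subgroup G) (⊤ : Subgroup G) (Cz (⊤ : Subgroup G) v) (rep M (Cz (⊤ : Subgroup G) v) e) (cjF (t * a)⁻¹ θ) θ).2.2.2.2.1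
    have h3 := (hFEQ G M a (t * a)⁻¹ (⊤ : Subgroup G) (⊤ : Subgroup G) (Cz (⊤ : Subgroup G) v) θ θ θ).1.2.1
    have h4 : a * (t * a)⁻¹ = t⁻¹ := by group
    rw [h4] at h3
    rw [h2, h3]
    exact ⟨fun h => SB.trans (SB.symm h1) h, fun h => SB.trans h1 h⟩
  unfold LamZ
  rw [finsum_mem_def, finsum_mem_def]
  refine finsum_eq_of_bijective (fun t : G => t * a) (Group.mulRight_bijective a) fun t => ?_
  rw [Set.indicator_apply, Set.indicator_apply]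
  have h5 : t * (a * v * a⁻¹) * t⁻¹ = t * a * v * (t * a)⁻¹ := by group
  by_cases h6 : t ∈ {t : G | SB M (Cz (⊤ : Subgroup G) (a * v * a⁻¹)) (rep M (Cz (⊤ : Subgroup G) (a * v * a⁻¹)) (cjF a e)) (cjF t⁻¹ θ)}
  · rw [if_pos h6, if_pos (show t * a ∈ {t : G | SB M (Cz (⊤ : Subgroup G) v) (rep M (Cz (⊤ : Subgroup G) v) e) (cjF t⁻¹ θ)} from (hsb t).1 h6), hcard, h5]
  · rw [if_neg h6, if_neg (show t * a ∉ {t : G | SB M (Cz (⊤ : Subgroup G) v) (rep M (Cz (⊤ : Subgroup G) v) e) (cjF t⁻¹ θ)} from fun h => h6 ((hsb t).2 h))]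

theorem ORZ_zp {G : Type} [Group G] (a v : G) : cjS a (Subgroup.zpowers v) = Subgroup.zpowers (a * v * a⁻¹) := by
  show (Subgroup.zpowers v).map (MulAut.conj a).toMonoidHom = _
  rw [MonoidHom.map_zpowers]
  rfl

theorem ORZ_lamP (hFEQ : FEQ_stmt) (hCJB : CJB_stmt) (hUQT : UQT_stmt) {p : ℕ} {M : Ideal (integralClosure ℤ ℂ)} (hS : Setup p M)
    {G : Type} [Group G] [Finite G] (D T : Subgroup G) (θ : G → ℂ) (l : T →* ℂˣ) {R : Subgroup G} {f : G → ℂ} (hR : Pai p M R f) (a : G)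
    {v : G} (hv : v ∈ R) : LamP p M D T θ l (cjS a R) (cjF a f) (a * v * a⁻¹) = LamP p M D T θ l R f v := by
  have hzv : Subgroup.zpowers v ≤ R := Subgroup.zpowers_le.2 hv
  obtain ⟨-, hU1, -, -, -⟩ := hUQT p M hS G R f hR
  have hcj := (hCJB p M hS G a (⊤ : Subgroup G) (un p M R f (Subgroup.zpowers v))).2.2.2.2 (Subgroup.zpowers v) R f
  have hR' : Pai p M (cjS a R) (cjF a f) := ((hCJB p M hS G a (⊤ : Subgroup G) f).2.2.2.2 R R f).1.1 hR
  obtain ⟨-, -, -, hU3, -⟩ := hUQT p M hS G (cjS a R) (cjF a f) hR'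
  have h1 := (hU3 _ _ (hcj.2.2.1 (hU1 _ hzv).2)).2
  rw [ORZ_zp] at h1
  unfold LamP
  rw [← h1]
  refine ORZ_lam hFEQ hCJB hS D T θ l a v _ ?_
  have h2 := (hU1 _ hzv).1.bb
  rw [cz_zp] at h2
  exact h2

theorem ORZ (hFEQ : FEQ_stmt) (hLIZ : LIZ_stmt) (hCJB : CJB_stmt) (hUQT : UQT_stmt) (hREP : REP_stmt) : ORZ_stmt := by
  classical
  intro p M hS G _ _ D T x θ χ hZ l ψ hψ ψ' hψ' P hP w hw q
  -- the finite set of the pairs
  have hfin : {z : Subgroup G × (G → ℂ) | z.1 ≤ P ∧ Pai p M z.1 z.2}.Finite := by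
    refine Set.Finite.subset (Set.Finite.biUnion (Set.toFinite (Set.univ : Set (Subgroup G)))
      fun Q _ => ((Set.finite_singleton Q).prod (hREP p M hS G (cz Q)).1)) ?_
    rintro ⟨Q, e⟩ ⟨-, h⟩
    exact Set.mem_biUnion (Set.mem_univ Q) ⟨rfl, h.bb⟩
  obtain ⟨W, hW⟩ : ∃ W : (Subgroup G × (G → ℂ)) × (Fin q → G) → ℂ, ∀ y, W y = (∏ i, y.1.2 (y.2 i)) *
      ∑ᶠ u ∈ (y.1.1 : Set G), LamP p M D T θ l y.1.1 y.1.2 u * ψ (u * (w * (List.ofFn y.2).prod)) * ψ' (u * w)⁻¹ := ⟨_, fun _ => rfl⟩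
  let Y : Set ((Subgroup G × (G → ℂ)) × (Fin q → G)) := {y | (y.1.1 ≤ P ∧ Pai p M y.1.1 y.1.2) ∧ stb P y.1.1 y.1.2 y.2 = y.1.1}
  have hY : Y.Finite := by
    refine Set.Finite.subset (hfin.prod (Set.toFinite (Set.univ : Set (Fin q → G)))) ?_
    rintro ⟨z, t⟩ ⟨h, -⟩
    exact ⟨h, Set.mem_univ t⟩
  have hsum : ∑ᶠ z ∈ {z : Subgroup G × (G → ℂ) | z.1 ≤ P ∧ Pai p M z.1 z.2}, ∑ᶠ t ∈ {t : Fin q → G | stb P z.1 z.2 t = z.1},
        (∏ i, z.2 (t i)) * ∑ᶠ u ∈ (z.1 : Set G), LamP p M D T θ l z.1 z.2 u * ψ (u * (w * (List.ofFn t).prod)) * ψ' (u * w)⁻¹ =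
      ∑ᶠ y ∈ Y, W y := by
    have h1 : ∑ᶠ z ∈ {z : Subgroup G × (G → ℂ) | z.1 ≤ P ∧ Pai p M z.1 z.2}, ∑ᶠ t ∈ {t : Fin q → G | stb P z.1 z.2 t = z.1},
        (∏ i, z.2 (t i)) * ∑ᶠ u ∈ (z.1 : Set G), LamP p M D T θ l z.1 z.2 u * ψ (u * (w * (List.ofFn t).prod)) * ψ' (u * w)⁻¹ =
        ∑ᶠ z ∈ {z : Subgroup G × (G → ℂ) | z.1 ≤ P ∧ Pai p M z.1 z.2}, ∑ᶠ t ∈ {t : Fin q → G | stb P z.1 z.2 t = z.1}, W (z, t) :=
      finsum_congr fun z => finsum_congr fun _ => finsum_congr fun t => finsum_congr fun _ => (hW (z, t)).symm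
    rw [h1, finsum_mem_eq_finite_toFinset_sum _ hfin, finsum_mem_eq_finite_toFinset_sum _ hY]
    have h2 : ∀ z : Subgroup G × (G → ℂ), ∑ᶠ t ∈ {t : Fin q → G | stb P z.1 z.2 t = z.1}, W (z, t) =
        ∑ t ∈ (Set.toFinite {t : Fin q → G | stb P z.1 z.2 t = z.1}).toFinset, W (z, t) := fun z =>
      finsum_mem_eq_finite_toFinset_sum _ _
    rw [Finset.sum_congr rfl fun z _ => h2 z, Finset.sum_sigma' hfin.toFinset (fun z => (Set.toFinite {t : Fin q → G | stb P z.1 z.2 t = z.1}).toFinset)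
      (fun z t => W (z, t))]
    refine Finset.sum_nbij' (fun s => (s.1, s.2)) (fun y => ⟨y.1, y.2⟩) ?_ ?_ ?_ ?_ ?_
    · rintro ⟨z, t⟩ h
      rw [Finset.mem_sigma, Set.Finite.mem_toFinset, Set.Finite.mem_toFinset] at h
      rw [Set.Finite.mem_toFinset]
      exact ⟨h.1, h.2⟩
    · rintro ⟨z, t⟩ h
      rw [Set.Finite.mem_toFinset] at h
      rw [Finset.mem_sigma, Set.Finite.mem_toFinset, Set.Finite.mem_toFinset]
      exact ⟨h.1, h.2⟩
    · rintro ⟨z, t⟩ _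
      rfl
    · rintro ⟨z, t⟩ _
      rfl
    · rintro ⟨z, t⟩ _
      rfl
  rw [hsum]
  -- conjugation
  have hcjP : ∀ a ∈ P, ∀ R : Subgroup G, R ≤ P → cjS a R ≤ P := by
    intro a ha R hR y hy
    rw [mem_cjS] at hy
    have : y = a * (a⁻¹ * y * a) * a⁻¹ := by group
    rw [this]
    exact P.mul_mem (P.mul_mem ha (hR hy)) (P.inv_mem ha)
  have hYa : ∀ a ∈ P, ∀ y ∈ Y, ((cjS a y.1.1, cjF a y.1.2), ORZ_c a y.2) ∈ Y := by
    rintro a ha ⟨⟨R, f⟩, t⟩ ⟨⟨h1, h2⟩, h3⟩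
    refine ⟨⟨hcjP a ha R h1, ((hCJB p M hS G a (⊤ : Subgroup G) f).2.2.2.2 R R f).1.1 h2⟩, ?_⟩
    change stb P (cjS a R) (cjF a f) (ORZ_c a t) = cjS a R
    rw [ORZ_stb hFEQ t ha]
    congr 1
  have hcW : ∀ a ∈ P, a * w = w * a := fun a ha => (Subgroup.mem_centralizer_iff.1 hw) a ha
  have hWa : ∀ a ∈ P, ∀ y ∈ Y, W ((cjS a y.1.1, cjF a y.1.2), ORZ_c a y.2) = W y := by
    rintro a ha ⟨⟨R, f⟩, t⟩ ⟨⟨h1, h2⟩, h3⟩
    change Pai p M R f at h2
    rw [hW, hW]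
    change (∏ i, cjF a f (a * t i * a⁻¹)) * ∑ᶠ u ∈ ((cjS a R : Subgroup G) : Set G), LamP p M D T θ l (cjS a R) (cjF a f) u *
      ψ (u * (w * (List.ofFn (ORZ_c a t)).prod)) * ψ' (u * w)⁻¹ = (∏ i, f (t i)) * ∑ᶠ u ∈ (R : Set G), LamP p M D T θ l R f u *
      ψ (u * (w * (List.ofFn t).prod)) * ψ' (u * w)⁻¹
    congr 1
    · refine Finset.prod_congr rfl fun i _ => ?_
      rw [cjF_apply]
      congr 1
      group
    · have h4 : ((cjS a R : Subgroup G) : Set G) = (fun v : G => a * v * a⁻¹) '' (R : Set G) := rfl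
      rw [h4, finsum_mem_image (fun v _ v' _ (h : a * v * a⁻¹ = a * v' * a⁻¹) => mul_left_cancel (mul_right_cancel h))]
      refine finsum_mem_congr rfl fun v hv => ?_
      rw [ORZ_lamP hFEQ hCJB hUQT hS D T θ l h2 a hv, ORZ_prod]
      have h5 : a * v * a⁻¹ * (w * (a * (List.ofFn t).prod * a⁻¹)) = a * (v * (w * (List.ofFn t).prod)) * a⁻¹ := by
        have h6 : a⁻¹ * w = w * a⁻¹ := hcW _ (P.inv_mem ha)
        calc a * v * a⁻¹ * (w * (a * (List.ofFn t).prod * a⁻¹)) = a * v * (a⁻¹ * w) * (a * (List.ofFn t).prod * a⁻¹) := by group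
          _ = a * v * (w * a⁻¹) * (a * (List.ofFn t).prod * a⁻¹) := by rw [h6]
          _ = _ := by group
      have h7 : (a * v * a⁻¹ * w)⁻¹ = a * (v * w)⁻¹ * a⁻¹ := by
        have h6 : a⁻¹ * w = w * a⁻¹ := hcW _ (P.inv_mem ha)
        have h8 : a * v * a⁻¹ * w = a * (v * w) * a⁻¹ := by
          calc a * v * a⁻¹ * w = a * v * (a⁻¹ * w) := by group
            _ = a * v * (w * a⁻¹) := by rw [h6]
            _ = _ := by group
        rw [h8]
        group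
      rw [h5, h7, IrrOn_conj hψ (Subgroup.mem_top a), IrrOn_conj hψ' (Subgroup.mem_top a)]
  let act : MulAction P Y :=
    { smul := fun a y => ⟨((cjS (a : G) y.1.1.1, cjF (a : G) y.1.1.2), ORZ_c (a : G) y.1.2), hYa a a.2 y.1 y.2⟩
      one_smul := by
        rintro ⟨⟨⟨R, f⟩, t⟩, h⟩
        apply Subtype.ext
        have hf := hFEQ G M 1 1 R R R f f f
        show ((cjS (1 : G) R, cjF (1 : G) f), ORZ_c (1 : G) t) = ((R, f), t)
        rw [hf.1.2.2.1, hf.1.2.2.2]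
        congr 1
        funext i
        show (1 : G) * t i * (1 : G)⁻¹ = t i
        rw [inv_one, mul_one, one_mul]
      mul_smul := by
        rintro a b ⟨⟨⟨R, f⟩, t⟩, h⟩
        apply Subtype.ext
        have hf := hFEQ G M (a : G) (b : G) R R R f f f
        show ((cjS ((a : G) * b) R, cjF ((a : G) * b) f), ORZ_c ((a : G) * b) t) =
          ((cjS (a : G) (cjS (b : G) R), cjF (a : G) (cjF (b : G) f)), ORZ_c (a : G) (ORZ_c (b : G) t))
        rw [hf.1.1, hf.1.2.1]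
        congr 1
        funext i
        show ((a : G) * (b : G)) * t i * ((a : G) * (b : G))⁻¹ = (a : G) * ((b : G) * t i * (b : G)⁻¹) * (a : G)⁻¹
        group }
  have _ : Fintype P := Fintype.ofFinite P
  have _ : Finite Y := hY
  have _ : Fintype Y := Fintype.ofFinite Y
  rw [← finsum_set_coe_eq_finsum_mem, finsum_eq_sum_of_fintype]
  refine FRB_orb hS P Y (fun y => W y.1) (fun a y => hWa a a.2 y.1 y.2) fun y => ?_
  obtain ⟨⟨⟨R, f⟩, t⟩, ⟨h1, h2⟩, h3⟩ := y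
  change R ≤ P at h1
  change Pai p M R f at h2
  change stb P R f t = R at h3
  have hRz : ∀ i, t i ∈ cz R := by
    intro i
    rw [Subgroup.mem_centralizer_iff]
    intro b hb
    have hb' : b ∈ stb P R f t := by rw [h3]; exact hb
    exact (((ORZ_mem P R f t b).1 hb').2.2.2 i).symm
  have hwR : w ∈ cz R := cz_mono h1 hw
  have hst : Nat.card (MulAction.stabilizer P (⟨((R, f), t), ⟨h1, h2⟩, h3⟩ : Y)) = Nat.card R := by
    have h4 : MulAction.stabilizer P (⟨((R, f), t), ⟨h1, h2⟩, h3⟩ : Y) = R.subgroupOf P := by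
      ext a
      rw [MulAction.mem_stabilizer_iff, Subgroup.mem_subgroupOf]
      have h5 : (a : G) ∈ R ↔ (a : G) ∈ stb P R f t := by rw [h3]
      rw [h5, ORZ_mem]
      have hf := hFEQ G M (a : G) (a : G) R R R f f f
      constructor
      · intro h
        have h6 : ((cjS (a : G) R, cjF (a : G) f), ORZ_c (a : G) t) = ((R, f), t) := congrArg Subtype.val h
        have h7 : cjS (a : G) R = R := congrArg (fun y => y.1.1) h6
        have h8 : cjF (a : G) f = f := congrArg (fun y => y.1.2) h6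
        have h9 : ORZ_c (a : G) t = t := congrArg (fun y => y.2) h6
        refine ⟨a.2, hf.2.1.2.2.2.1.1 h7, fun y => ?_, fun i => ?_⟩
        · have h10 := congrFun h8 ((a : G) * y * (a : G)⁻¹)
          rw [cjF_apply] at h10
          rw [← h10]
          congr 1
          group
        · have h10 : (a : G) * t i * (a : G)⁻¹ = t i := congrFun h9 i
          rw [mul_inv_eq_iff_eq_mul] at h10
          exact h10.symm
      · rintro ⟨-, h7, h8, h9⟩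
        apply Subtype.ext
        show ((cjS (a : G) R, cjF (a : G) f), ORZ_c (a : G) t) = ((R, f), t)
        rw [hf.2.1.2.2.2.1.2 h7]
        have h10 : cjF (a : G) f = f := by
          funext y
          rw [cjF_apply, ← h8 ((a : G)⁻¹ * y * a)]
          congr 1
          group
        have h11 : ORZ_c (a : G) t = t := by
          funext i
          show (a : G) * t i * (a : G)⁻¹ = t i
          rw [mul_inv_eq_iff_eq_mul]
          exact (h9 i).symm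
        rw [h10, h11]
    rw [h4]
    exact Nat.card_congr (Subgroup.subgroupOfEquivOfLe h1).toEquiv
  rw [hst]
  change IntAt M (W ((R, f), t) / Nat.card R)
  rw [hW, mul_div_assoc]
  refine IntAt.mul hS (IntAt.prod hS _ fun i _ => ((hREP p M hS G (cz R)).2.2.2.1 f h2.bb).2.2.1 _) ?_
  refine (hLIZ p M hS G D T x θ χ hZ l R f h2).2 (w * (List.ofFn t).prod) ?_ w hwR ψ hψ ψ' hψ'
  refine (cz R).mul_mem hwR (Subgroup.list_prod_mem _ fun y hy => ?_)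
  obtain ⟨i, rfl⟩ := (List.mem_ofFn' _ _).1 hy
  exact hRz i

end Pool.Agent.GB
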