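import Pool.Agent.helper70.GB.SpecN

/-!
# MW: Minkowski-Weyl for finitely generated abelian groups (Fourier-Motzkin elimination)

`helper70`, problem MP_7933bc_al.
-/

namespace GB

universe u

theorem MW_base (G : Type u) [AddCommGroup G] [AddGroup.FG G] :
    ∃ S : Set (G →+ ℤ), S.Finite ∧ ∀ g, (∀ a ∈ S, 0 ≤ a g) → ∃ k : ℕ, 1 ≤ k ∧ k • g = 0 := by
  have hfin : Module.Finite ℤ G := Module.Finite.iff_addGroup_fg.2 inferInstance
  let Q := G ⧸ Submodule.torsion ℤ G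
  have hfree : Module.Free ℤ Q := inferInstance
  let b := Module.Free.chooseBasis ℤ Q
  let f : Module.Free.ChooseBasisIndex ℤ Q → G →+ ℤ := fun i =>
    ((b.coord i).comp (Submodule.mkQ (Submodule.torsion ℤ G))).toAddMonoidHom
  refine ⟨Set.range f ∪ Set.range (fun i => - f i),
    (Set.finite_range _).union (Set.finite_range _), ?_⟩
  intro g hg
  have h0 : ∀ i, f i g = 0 := by
    intro i
    have h1 := hg (f i) (Or.inl ⟨i, rfl⟩)
    have h2 := hg (- f i) (Or.inr ⟨i, rfl⟩)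
    rw [AddMonoidHom.neg_apply] at h2
    omega
  have h1 : Submodule.mkQ (Submodule.torsion ℤ G) g = 0 := by
    apply b.ext_elem
    intro i
    rw [map_zero, Finsupp.zero_apply]
    exact h0 i
  rw [Submodule.mkQ_apply, Submodule.Quotient.mk_eq_zero] at h1
  obtain ⟨a, ha⟩ := h1
  have ha0 : (a : ℤ) ≠ 0 := nonZeroDivisors.coe_ne_zero a
  refine ⟨(a : ℤ).natAbs, Int.natAbs_pos.2 ha0, ?_⟩
  have ha' : (a : ℤ) • g = 0 := ha
  rcases Int.natAbs_eq (a : ℤ) with h | h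
  · rw [← natCast_zsmul, ← h, ha']
  · have h2 : (((a : ℤ).natAbs : ℕ) : ℤ) = -(a : ℤ) := by omega
    rw [← natCast_zsmul, h2, neg_smul, ha', neg_zero]

theorem MW_step {G : Type u} [AddCommGroup G] (M : AddSubmonoid G) (x : G)
    (S : Set (G →+ ℤ)) (hS : S.Finite) (h1 : ∀ a ∈ S, ∀ m ∈ M, 0 ≤ a m)
    (h2 : ∀ g, (∀ a ∈ S, 0 ≤ a g) → ∃ k : ℕ, 1 ≤ k ∧ k • g ∈ M) :
    ∃ S' : Set (G →+ ℤ), S'.Finite ∧ (∀ a ∈ S', (∀ m ∈ M, 0 ≤ a m) ∧ 0 ≤ a x) ∧
      ∀ g, (∀ a ∈ S', 0 ≤ a g) → ∃ k c : ℕ, 1 ≤ k ∧ ∃ m ∈ M, k • g = m + c • x := by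
  refine ⟨{a | a ∈ S ∧ 0 ≤ a x} ∪ (fun p : (G →+ ℤ) × (G →+ ℤ) => p.1 x • p.2 - p.2 x • p.1) ''
    {p | (p.1 ∈ S ∧ 0 < p.1 x) ∧ p.2 ∈ S ∧ p.2 x < 0}, ?_, ?_, ?_⟩
  · refine (hS.subset fun a ha => ha.1).union (Set.Finite.image _ ?_)
    exact (hS.prod hS).subset fun p hp => ⟨hp.1.1, hp.2.1⟩
  · rintro a (⟨ha, hax⟩ | ⟨⟨b, b'⟩, ⟨⟨hb, hbx⟩, hb', hb'x⟩, rfl⟩)
    · exact ⟨h1 a ha, hax⟩
    · simp only at hbx hb'x
      refine ⟨fun m hm => ?_, ?_⟩
      · have e1 := h1 b hb m hm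
        have e2 := h1 b' hb' m hm
        simp only [AddMonoidHom.sub_apply, AddMonoidHom.smul_apply, smul_eq_mul]
        linarith [mul_nonneg hbx.le e2, mul_nonneg (neg_nonneg.2 hb'x.le) e1]
      · simp only [AddMonoidHom.sub_apply, AddMonoidHom.smul_apply, smul_eq_mul]
        exact (by ring : (0 : ℤ) = b x * b' x - b' x * b x).le
  · intro g hg
    -- it suffices to find `k ≥ 1` and `c` with `0 ≤ b (k g - c x)` for all `b ∈ S`
    suffices H : ∃ k c : ℕ, 1 ≤ k ∧ ∀ b ∈ S, (c : ℤ) * b x ≤ (k : ℤ) * b g by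
      obtain ⟨k, c, hk, H⟩ := H
      obtain ⟨k', hk', hm⟩ := h2 (k • g - c • x) (by
        intro b hb
        have := H b hb
        rw [map_sub, map_nsmul, map_nsmul, nsmul_eq_mul, nsmul_eq_mul]
        linarith)
      refine ⟨k' * k, k' * c, Nat.mul_pos hk' hk, _, hm, ?_⟩
      rw [smul_sub, mul_smul, mul_smul, sub_add_cancel]
    by_cases hN : ∃ b ∈ S, b x < 0 ∧ b g < 0
    · -- choose `b'` with `b' x < 0` maximizing `b' g / b' x`
      obtain ⟨b0, hb0, hb0x, hb0g⟩ := hN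
      obtain ⟨b', ⟨hb', hb'x⟩, hmax⟩ := Set.exists_max_image {b | b ∈ S ∧ b x < 0}
        (fun b => (b g : ℚ) / (b x : ℚ)) (hS.subset fun b hb => hb.1) ⟨b0, hb0, hb0x⟩
      have hcmp : ∀ b ∈ S, b x < 0 → b g * b' x ≤ b' g * b x := by
        intro b hb hbx
        have h : (b g : ℚ) / b x ≤ (b' g : ℚ) / b' x := hmax b ⟨hb, hbx⟩
        have e1 : (b x : ℚ) < 0 := by exact_mod_cast hbx
        have e2 : (b' x : ℚ) < 0 := by exact_mod_cast hb'x
        have e3 : (b g : ℚ) * b' x ≤ b' g * b x := by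
          have e4 : 0 < (b x : ℚ) * b' x := mul_pos_of_neg_of_neg e1 e2
          have e5 := mul_le_mul_of_nonneg_right h e4.le
          have n1 : (b x : ℚ) ≠ 0 := e1.ne
          have n2 : (b' x : ℚ) ≠ 0 := e2.ne
          have e6 : (b g : ℚ) / b x * (b x * b' x) = b g * b' x := by
            rw [← mul_assoc, div_mul_cancel₀ _ n1]
          have e7 : (b' g : ℚ) / b' x * (b x * b' x) = b' g * b x := by
            rw [mul_comm (b x : ℚ) (b' x : ℚ), ← mul_assoc, div_mul_cancel₀ _ n2]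
          rw [e6, e7] at e5
          exact e5
        exact_mod_cast e3
      have hb'g : b' g < 0 := by
        have h := hcmp b0 hb0 hb0x
        by_contra hcon
        push Not at hcon
        linarith [mul_pos_of_neg_of_neg hb0g hb'x, mul_nonneg hcon (neg_nonneg.2 hb0x.le)]
      refine ⟨(-(b' x)).toNat, (-(b' g)).toNat, by omega, fun b hb => ?_⟩
      rw [Int.toNat_of_nonneg (by omega), Int.toNat_of_nonneg (by omega)]
      rcases lt_trichotomy (b x) 0 with hbx | hbx | hbx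
      · have := hcmp b hb hbx
        linarith
      · have := hg b (Or.inl ⟨hb, hbx.ge⟩)
        rw [hbx]
        linarith [mul_nonneg (neg_nonneg.2 hb'x.le) this]
      · have := hg (b x • b' - b' x • b) (Or.inr ⟨(b, b'), ⟨⟨hb, hbx⟩, hb', hb'x⟩, rfl⟩)
        simp only [AddMonoidHom.sub_apply, AddMonoidHom.smul_apply, smul_eq_mul] at this
        linarith
    · push Not at hN
      refine ⟨1, 0, le_refl _, fun b hb => ?_⟩
      rcases lt_or_ge (b x) 0 with hbx | hbx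
      · have := hN b hb hbx
        simpa using this
      · have := hg b (Or.inl ⟨hb, hbx⟩)
        simpa using this

theorem MW_closure {G : Type u} [AddCommGroup G] (a : G →+ ℤ) (s : Set G)
    (h : ∀ x ∈ s, 0 ≤ a x) : ∀ x ∈ AddSubmonoid.closure s, 0 ≤ a x := by
  intro x hx
  induction hx using AddSubmonoid.closure_induction with
  | mem x hx => exact h x hx
  | zero => exact (map_zero a).ge
  | add x y _ _ hx hy =>
    rw [map_add]
    exact Int.add_nonneg hx hy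

theorem MW_set (G : Type u) [AddCommGroup G] [AddGroup.FG G] (q : ℕ) : ∀ m : Fin q → G,
    ∃ S : Set (G →+ ℤ), S.Finite ∧
      (∀ a ∈ S, ∀ x ∈ AddSubmonoid.closure (Set.range m), 0 ≤ a x) ∧
      ∀ g, (∀ a ∈ S, 0 ≤ a g) → ∃ k : ℕ, 1 ≤ k ∧ k • g ∈ AddSubmonoid.closure (Set.range m) := by
  induction q with
  | zero =>
    intro m
    obtain ⟨S, hS, h⟩ := MW_base G
    have hr : AddSubmonoid.closure (Set.range m) = ⊥ := by
      rw [Set.range_eq_empty, AddSubmonoid.closure_empty]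
    refine ⟨S, hS, ?_, ?_⟩
    · intro a _ x hx
      rw [hr, AddSubmonoid.mem_bot] at hx
      rw [hx, map_zero]
    · intro g hg
      obtain ⟨k, hk, h0⟩ := h g hg
      exact ⟨k, hk, by rw [h0]; exact AddSubmonoid.zero_mem _⟩
  | succ q ih =>
    intro m
    obtain ⟨S, hS, h1, h2⟩ := ih (fun i => m i.castSucc)
    obtain ⟨S', hS', h1', h2'⟩ := MW_step (AddSubmonoid.closure (Set.range fun i : Fin q => m i.castSucc))
      (m (Fin.last q)) S hS h1 h2
    have hle : AddSubmonoid.closure (Set.range fun i : Fin q => m i.castSucc) ≤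
        AddSubmonoid.closure (Set.range m) := by
      apply AddSubmonoid.closure_mono
      rintro _ ⟨i, rfl⟩
      exact ⟨i.castSucc, rfl⟩
    refine ⟨S', hS', ?_, ?_⟩
    · intro a ha
      apply MW_closure a
      rintro _ ⟨i, rfl⟩
      induction i using Fin.lastCases with
      | last => exact (h1' a ha).2
      | cast j => exact (h1' a ha).1 _ (AddSubmonoid.subset_closure ⟨j, rfl⟩)
    · intro g hg
      obtain ⟨k, c, hk, x, hx, h⟩ := h2' g hg
      refine ⟨k, hk, ?_⟩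
      rw [h]
      have hl : m (Fin.last q) ∈ AddSubmonoid.closure (Set.range m) :=
        AddSubmonoid.subset_closure (Set.mem_range_self (Fin.last q))
      exact AddSubmonoid.add_mem _ (hle hx) (AddSubmonoid.nsmul_mem _ hl c)

theorem MW : MW_stmt.{u} := by
  intro G _ _ q m
  obtain ⟨S, hS, h1, h2⟩ := MW_set G q m
  obtain ⟨s, ⟨e⟩⟩ : ∃ s, Nonempty (Fin s ≃ S) := by
    have := hS.fintype
    exact ⟨Fintype.card S, ⟨(Fintype.equivFin S).symm⟩⟩
  refine ⟨s, fun i => (e i : G →+ ℤ), ?_, ?_⟩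
  · intro i j
    exact h1 _ (e i).2 _ (AddSubmonoid.subset_closure ⟨j, rfl⟩)
  · intro g hg
    refine h2 g fun a ha => ?_
    have h3 := hg (e.symm ⟨a, ha⟩)
    simpa using h3

end GB
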