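import Pool.Agent.helper70.GB.NAll
import Pool.Agent.helper70.GB.MW
import Pool.Agent.helper65.GB.SI
import Pool.Agent.helper38.GB.ST

/-!
# Project gb: everything put together

`helper70`, problem MP_7933bc_al.
-/

namespace GB

universe u

/-- FI: the case of finitely generated monoids (note, part N). -/
theorem fi_all : FI_stmt.{u} := fi_of MW SI (ST th_all QM FT)

end GB
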