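import Pool.Agent.helper70.GB.SpecF

/-!
# Project gb: the final statement from `FI` and `RAO`

`helper70`, problem MP_7933bc_al.
-/

open Matrix

namespace GB

universe u v

section

variable {A B : Type*} [CommRing A] [CommRing B]

theorem Final_sl {n : ℕ} (hn : 2 ≤ n) {v : Fin n → A} (hv : Comp v) (i : Fin n) :
    ∃ g : Matrix.SpecialLinearGroup (Fin n) A, (g : Matrix (Fin n) (Fin n) A) i = v := by
  obtain ⟨M, hM, h⟩ := (comp_iff_gEq_single i).1 hv
  have hrow : M i = v := by rw [h, Matrix.single_one_vecMul]; rfl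
  -- rescale another row by the inverse of the determinant
  obtain ⟨j, hj⟩ : ∃ j : Fin n, j ≠ i := by
    by_cases h0 : i = ⟨0, by omega⟩
    · exact ⟨⟨1, by omega⟩, by rw [h0]; simp⟩
    · exact ⟨⟨0, by omega⟩, fun h => h0 h.symm⟩
  obtain ⟨u, hu⟩ := hM
  refine ⟨⟨M.updateRow j (((u⁻¹ : Aˣ) : A) • M j), ?_⟩, ?_⟩
  · rw [Matrix.det_updateRow_smul, Matrix.updateRow_eq_self, ← hu, Units.inv_mul]
  · show (M.updateRow j (((u⁻¹ : Aˣ) : A) • M j)) i = v
    rw [Matrix.updateRow_ne hj.symm, hrow]

theorem Final_equiv (e : A ≃+* B) {n : ℕ} (h : AllComp n A) : AllComp n B := by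
  intro v hv
  have h1 : Um (fun i => e.symm (v i)) := hv.map (e.symm : B →+* A)
  have h2 := (h _ h1).map (e : A →+* B)
  have h3 : (fun i => (e : A →+* B) ((fun i => e.symm (v i)) i)) = v := by
    funext i
    simp
  rwa [h3] at h2

end

/-- the ring isomorphism which lifts a monoid algebra to a larger universe. -/
theorem Final_ulift (R : Type u) (M : Type v) [CommRing R] [AddCommMonoid M] :
    Nonempty (AddMonoidAlgebra (ULift.{v} R) (ULift.{u} M) ≃+* AddMonoidAlgebra R M) := by
  refine ⟨(AddMonoidAlgebra.mapRingEquiv _ ULift.ringEquiv).trans ?_⟩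
  exact (AddMonoidAlgebra.domCongr R R AddEquiv.ulift).toRingEquiv

/-- the final statement. -/
theorem Final (hRAO : RAO_stmt.{max u v}) (hFI : FI_stmt.{max u v}) (R : Type u) (M : Type v)
    [CommRing R] [IsLocalRing R] [IsNoetherianRing R] [AddCancelCommMonoid M]
    (d : ℕ) (hd : 2 ≤ d) (hR : ringKrullDim R = d) (hfac : IsUnit ((d.factorial : ℕ) : R))
    (hM : ∀ a b : M, a + b = 0 → a = 0) :
    {v : Fin (d + 1) → AddMonoidAlgebra R M | Ideal.span (Set.range v) = ⊤} =
      {v | ∃ g : Matrix.SpecialLinearGroup (Fin (d + 1)) (AddMonoidAlgebra R M),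
        (g : Matrix (Fin (d + 1)) (Fin (d + 1)) (AddMonoidAlgebra R M)) 0 = v} := by
  apply Set.Subset.antisymm
  · intro v hv
    have hv' : Um v := um_iff_span.2 hv
    obtain ⟨e⟩ := Final_ulift.{u, v} R M
    let eR : ULift.{v} R ≃+* R := ULift.ringEquiv
    have : IsNoetherianRing (ULift.{v} R) := isNoetherianRing_of_ringEquiv R eR.symm
    have : IsLocalRing (ULift.{v} R) := eR.symm.isLocalRing
    have hCC : CC (d + 1) (ULift.{v} R) := by
      refine ⟨inferInstance, inferInstance, ?_, ?_⟩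
      · rw [ringKrullDim_eq_of_ringEquiv eR, hR]
        simp
      · have h1 := hfac.map (eR.symm : R →+* ULift.{v} R)
        rw [map_natCast] at h1
        simpa using h1
    have h := hFI hRAO (d + 1) (by omega) (ULift.{v} R) (ULift.{u} M) hCC (by
      intro a b hab
      have : a.down + b.down = 0 := congrArg ULift.down hab
      exact ULift.down_injective (hM _ _ this))
    exact Final_sl (by omega) (Final_equiv e h v hv') 0
  · rintro v ⟨g, rfl⟩
    have h : Comp ((g : Matrix (Fin (d + 1)) (Fin (d + 1)) (AddMonoidAlgebra R M)) 0) :=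
      ⟨0, g, by rw [g.2]; exact isUnit_one, rfl⟩
    exact um_iff_span.1 h.um

end GB
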