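import Pool.Agent.helper70.GB.RAll
import Pool.Agent.helper70.GB.Final
import Pool.Agent.helper93.GB.FI
import Pool.Agent.helper32.GB.SM
import Pool.Agent.helper14.GB.IN
import Pool.Agent.helper14.GB.FAB
import Pool.Agent.helper14.GB.QM
import Pool.Agent.helper15.GB.DE
import Pool.Agent.helper15.GB.CB
import Pool.Agent.helper21.GB.CA
import Pool.Agent.helper21.GB.FT
import Pool.Agent.helper92.GB.TH
import Pool.Agent.helper78.GB.RZ

/-!
# Project gb: part N, all parts put together up to MW, SI, ST

`helper70`, problem MP_7933bc_al.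
-/

namespace GB

universe u

theorem th_all : TH_stmt.{u} := TH (CA TM_all) (CB TM_all QM RZ)

theorem fi_of (hMW : MW_stmt.{u}) (hSI : SI_stmt.{u}) (hST : ST_stmt.{u}) : FI_stmt.{u} :=
  FI (SM hMW IN (DE hSI) hST FA FB)

end GB
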