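import Pool.Agent.helper91.GB.FN
import Pool.Agent.helper30.GB.KE
import Pool.Agent.helper16.GB.KT
import Pool.Agent.helper16.GB.RF
import Pool.Agent.helper99.GB.SU
import Pool.Agent.helper99.GB.KW
import Pool.Agent.helper1.GB.TF
import Pool.Agent.helper1.GB.RS
import Pool.Agent.helper65.GB.TT
import Pool.Agent.helper65.GB.GP
import Pool.Agent.helper67.GB.T4
import Pool.Agent.helper74.GB.VV
import Pool.Agent.helper74.GB.L1
import Pool.Agent.helper43.GB.F2
import Pool.Agent.helper37.GB.PH
import Pool.Agent.helper2.GB.KL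
import Pool.Agent.helper32.GB.RT
import Pool.Agent.helper92.GB.RW
import Pool.Agent.helper93.GB.HZ
import Pool.Agent.helper18.GB.SX
import Pool.Agent.helper42.GB.CS
import Pool.Agent.helper42.GB.RC
import Pool.Agent.helper44.GB.NF
import Pool.Agent.helper44.GB.O2
import Pool.Agent.helper80.GB.RL
import Pool.Agent.helper78.GB.BP

import Pool.Agent.helper29.GB.TA
import Pool.Agent.helper35.GB.MON
import Pool.Agent.helper89.GB.TMall
import Pool.Agent.helper55.GB.ES

/-!
# Project gb: Rao's theorem, all parts put together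

`helper70`, problem MP_7933bc_al.
-/

namespace GB

universe u

theorem gp_all : GP_stmt.{u} := by
  intro R _ _ κ _ x s
  exact GP x s

theorem o2_all : O2_stmt.{u} := by
  intro A _ ι _ _ h3 v hv i l hli a b c hab
  exact eEq_sq_mul_of_entry v hv h3 i l hli.symm a b c (by rw [hab]; ring)

theorem ta_all : TA_stmt.{u} := TA gp_all MON

theorem cs_all : CS_stmt.{u} :=
  CS (RCS (RC ta_all BP BQ (RS ta_all gp_all) (RL gp_all o2_all) (RF o2_all)))

theorem hz_all : HZ_stmt.{u} := HZ TM_all

theorem kw_all : KW_stmt.{u} := KW KL RT VE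

theorem fn_of (hES : ES_stmt.{u}) : FN_stmt.{u} :=
  FN KE KT SU (TF hES TI) T4 VS VE L1 (F2 PH)

theorem rao_of (hES : ES_stmt.{u}) : RAO_stmt.{u} :=
  RW cs_all kw_all (fn_of hES) SX LF NF hz_all

/-- Rao's theorem: for a Noetherian local ring `R` of dimension at most `n - 1` with `(n-1)!`
invertible, unimodular rows of length `n ≥ 3` over `R[X]` are completable. -/
theorem rao_all : RAO_stmt.{u} := rao_of ES

end GB
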